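import Pool.Agent.H41.AL.Defs2
import Pool.Agent.H41.CO.LLL

set_option autoImplicit false

namespace Pool.Agent.H729.AG

open Finset Pool.Agent.H41.AL Pool.Agent.Helper208.Rainbow

/-- moment generating function of the number of elements of `N` of colour `i` -/
lemma mgf {V : Type} [Fintype V] [DecidableEq V] (K : ℕ) (hK : 1 ≤ K) (N : Finset V) (i : Fin K)
    (s : ℝ) (hs : 0 ≤ s) :
    ∑ ρ : V → Fin K, Real.exp (s * ((N.filter fun u => ρ u = i).card : ℝ)) ≤
      Real.exp (N.card * ((Real.exp s - 1) / K)) * (K : ℝ) ^ Fintype.card V := by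
  have hK0 : (0 : ℝ) < K := by exact_mod_cast hK
  have h1 : ∀ ρ : V → Fin K, Real.exp (s * ((N.filter fun u => ρ u = i).card : ℝ)) =
      ∏ u : V, (if u ∈ N ∧ ρ u = i then Real.exp s else 1) := by
    intro ρ
    rw [Finset.prod_ite, prod_const_one, mul_one, prod_const, ← Real.exp_nat_mul, mul_comm]
    have : (univ.filter fun u => u ∈ N ∧ ρ u = i) = N.filter fun u => ρ u = i := by
      ext u; simp
    rw [this]
  have h2 : ∑ ρ : V → Fin K, ∏ u : V, (if u ∈ N ∧ ρ u = i then Real.exp s else 1) =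
      ∏ u : V, ∑ c : Fin K, (if u ∈ N ∧ c = i then Real.exp s else 1) := by
    rw [Finset.prod_univ_sum, Fintype.piFinset_univ]
  have h3 : ∀ u : V, ∑ c : Fin K, (if u ∈ N ∧ c = i then Real.exp s else 1) ≤
      (if u ∈ N then Real.exp ((Real.exp s - 1) / K) else 1) * K := by
    intro u
    by_cases hu : u ∈ N
    · have e1 : ∀ c : Fin K, (if u ∈ N ∧ c = i then Real.exp s else (1 : ℝ)) =
          1 + if c = i then (Real.exp s - 1) else 0 := by
        intro c
        by_cases hc : c = i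
        · simp [hu, hc]
        · simp [hc]
      rw [Finset.sum_congr rfl (fun c _ => e1 c), Finset.sum_add_distrib, Finset.sum_ite_eq',
        if_pos (Finset.mem_univ i), if_pos hu]
      simp only [Finset.sum_const, Finset.card_univ, Fintype.card_fin, nsmul_eq_mul, mul_one]
      have h4 := Real.add_one_le_exp ((Real.exp s - 1) / K)
      have h5 := mul_le_mul_of_nonneg_right h4 hK0.le
      have h6 : ((Real.exp s - 1) / K + 1) * K = K + (Real.exp s - 1) := by
        field_simp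
        ring
      linarith
    · simp [hu]
  have h0 : ∀ u : V, 0 ≤ ∑ c : Fin K, (if u ∈ N ∧ c = i then Real.exp s else 1) := by
    intro u
    apply Finset.sum_nonneg
    intro c _
    split_ifs
    · exact (Real.exp_pos _).le
    · exact zero_le_one
  rw [Finset.sum_congr rfl (fun ρ _ => h1 ρ), h2]
  refine (Finset.prod_le_prod (fun u _ => h0 u) (fun u _ => h3 u)).trans ?_
  rw [Finset.prod_mul_distrib, Finset.prod_ite, prod_const_one, mul_one, prod_const, prod_const,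
    ← Real.exp_nat_mul, Finset.card_univ]
  have : (univ.filter fun u => u ∈ N) = N := by
    ext u; simp
  rw [this]

/-- the Chernoff bound -/
lemma tail {V : Type} [Fintype V] [DecidableEq V] (K : ℕ) (hK : 1 ≤ K) (N : Finset V) (i : Fin K)
    (ε : ℝ) (h0 : 0 < ε) (h1 : ε ≤ 1) (D : ℕ) (hN : N.card ≤ D) :
    ((univ.filter fun ρ : V → Fin K =>
      (1 + ε) * D / K < ((N.filter fun u => ρ u = i).card : ℝ)).card : ℝ) ≤
      Real.exp (-(ε ^ 2 / 4 * (D / K))) * (K : ℝ) ^ Fintype.card V := by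
  have hK0 : (0 : ℝ) < K := by exact_mod_cast hK
  set s : ℝ := ε / 2 with hs
  have hs0 : 0 ≤ s := by rw [hs]; linarith
  have hs1 : |s| ≤ 1 := by rw [abs_of_nonneg hs0, hs]; linarith
  have hm := mgf K hK N i s hs0
  have he : Real.exp s - 1 ≤ s + s ^ 2 := by
    have := (abs_le.1 (Real.abs_exp_sub_one_sub_id_le hs1)).2
    linarith
  have he0 : 0 ≤ Real.exp s - 1 := by
    have := Real.add_one_le_exp s
    linarith
  set S := univ.filter fun ρ : V → Fin K =>
      (1 + ε) * D / K < ((N.filter fun u => ρ u = i).card : ℝ) with hS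
  have h2 : (S.card : ℝ) * Real.exp (s * ((1 + ε) * D / K)) ≤
      ∑ ρ : V → Fin K, Real.exp (s * ((N.filter fun u => ρ u = i).card : ℝ)) := by
    rw [← nsmul_eq_mul, ← Finset.sum_const]
    refine (Finset.sum_le_sum (f := fun _ => Real.exp (s * ((1 + ε) * D / K)))
      (g := fun ρ : V → Fin K => Real.exp (s * ((N.filter fun u => ρ u = i).card : ℝ)))
      ?_).trans (Finset.sum_le_sum_of_subset_of_nonneg (Finset.subset_univ S)
        (fun ρ _ _ => (Real.exp_pos _).le))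
    intro ρ hρ
    rw [hS, Finset.mem_filter] at hρ
    exact Real.exp_le_exp.2 (mul_le_mul_of_nonneg_left hρ.2.le hs0)
  have hDK : (0 : ℝ) ≤ D / K := by positivity
  have h3 : (N.card : ℝ) * ((Real.exp s - 1) / K) ≤ (D / K) * (s + s ^ 2) := by
    have a1 : (N.card : ℝ) ≤ D := by exact_mod_cast hN
    calc (N.card : ℝ) * ((Real.exp s - 1) / K) ≤ D * ((Real.exp s - 1) / K) :=
          mul_le_mul_of_nonneg_right a1 (div_nonneg he0 hK0.le)
      _ = (D / K) * (Real.exp s - 1) := by ring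
      _ ≤ _ := mul_le_mul_of_nonneg_left he hDK
  have h4 : Real.exp (N.card * ((Real.exp s - 1) / K)) ≤
      Real.exp (-(ε ^ 2 / 4 * (D / K))) * Real.exp (s * ((1 + ε) * D / K)) := by
    rw [← Real.exp_add]
    apply Real.exp_le_exp.2
    refine h3.trans (le_of_eq ?_)
    rw [hs]
    ring
  have hp : (0 : ℝ) < Real.exp (s * ((1 + ε) * D / K)) := Real.exp_pos _
  have hV : (0 : ℝ) ≤ (K : ℝ) ^ Fintype.card V := by positivity
  have h5 := (h2.trans hm).trans (mul_le_mul_of_nonneg_right h4 hV)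
  have h6 : Real.exp (-(ε ^ 2 / 4 * (D / K))) * Real.exp (s * ((1 + ε) * D / K)) *
      (K : ℝ) ^ Fintype.card V = (Real.exp (-(ε ^ 2 / 4 * (D / K))) *
      (K : ℝ) ^ Fintype.card V) * Real.exp (s * ((1 + ε) * D / K)) := by ring
  rw [h6] at h5
  exact le_of_mul_le_mul_right h5 hp

/-- the choice of `D₀` -/
lemma exD (b : ℝ) (hb : 0 < b) : ∃ D₀ : ℕ, ∀ D : ℕ, D₀ ≤ D → 1 ≤ D ∧
    8 * (D : ℝ) ^ 3 * Real.exp (-(b * (D : ℝ) ^ (1 / 10 : ℝ))) ≤ 1 := by
  have h1 : Filter.Tendsto (fun y : ℝ => b * y) Filter.atTop Filter.atTop :=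
    Filter.tendsto_id.const_mul_atTop hb
  have h2 := (Real.tendsto_pow_mul_exp_neg_atTop_nhds_zero 30).comp h1
  have h3 : Filter.Tendsto (fun D : ℕ => (D : ℝ) ^ (1 / 10 : ℝ)) Filter.atTop Filter.atTop :=
    (tendsto_rpow_atTop (by norm_num : (0 : ℝ) < 1 / 10)).comp tendsto_natCast_atTop_atTop
  have h4 := h2.comp h3
  have h5 : ∀ᶠ D : ℕ in Filter.atTop, (b * (D : ℝ) ^ (1 / 10 : ℝ)) ^ 30 *
      Real.exp (-(b * (D : ℝ) ^ (1 / 10 : ℝ))) < b ^ 30 / 8 := by
    have := h4.eventually_lt_const (show (0 : ℝ) < b ^ 30 / 8 by positivity)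
    exact this
  obtain ⟨D₀, hD⟩ := Filter.eventually_atTop.1 h5
  refine ⟨max D₀ 1, fun D hD' => ⟨le_trans (le_max_right _ _) hD', ?_⟩⟩
  have h6 := hD D (le_trans (le_max_left _ _) hD')
  have h7 : (b * (D : ℝ) ^ (1 / 10 : ℝ)) ^ 30 = b ^ 30 * (D : ℝ) ^ 3 := by
    rw [mul_pow, ← Real.rpow_natCast ((D : ℝ) ^ (1 / 10 : ℝ)) 30, ← Real.rpow_mul (Nat.cast_nonneg D)]
    have : (1 / 10 : ℝ) * ((30 : ℕ) : ℝ) = ((3 : ℕ) : ℝ) := by norm_num
    rw [this, Real.rpow_natCast]
  rw [h7] at h6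
  have hb30 : (0 : ℝ) < b ^ 30 := by positivity
  have h8 : b ^ 30 * ((D : ℝ) ^ 3 * Real.exp (-(b * (D : ℝ) ^ (1 / 10 : ℝ)))) < b ^ 30 * (1 / 8) := by
    have : b ^ 30 * ((D : ℝ) ^ 3 * Real.exp (-(b * (D : ℝ) ^ (1 / 10 : ℝ)))) =
      b ^ 30 * (D : ℝ) ^ 3 * Real.exp (-(b * (D : ℝ) ^ (1 / 10 : ℝ))) := by ring
    rw [this]
    linarith
  have h9 := lt_of_mul_lt_mul_left h8 hb30.le
  linarith

/-- The statement `S_GPART`. -/
theorem gpart : S_GPART := by
  intro ε h0 h1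
  obtain ⟨D₀, hD₀⟩ := exD (ε ^ 2 / 4) (by positivity)
  refine ⟨D₀, fun D hD K hK hKD V _ _ G _ hdeg => ?_⟩
  obtain ⟨hD1, hDe⟩ := hD₀ D hD
  have hK0 : (0 : ℝ) < K := by exact_mod_cast hK
  have hDr : (1 : ℝ) ≤ D := by exact_mod_cast hD1
  have hD0 : (0 : ℝ) < D := by linarith
  haveI : NeZero K := ⟨by omega⟩
  let E : V → Finset (V → Fin K) := fun v => Finset.univ.biUnion fun i : Fin K =>
    univ.filter fun ρ : V → Fin K =>
      (1 + ε) * D / K < (((univ.filter (G.Adj v)).filter fun u => ρ u = i).card : ℝ)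
  have hdep : ∀ v, DepOn (E v) (univ.filter (G.Adj v)) := by
    intro v ω ω' hω
    have h2 : ∀ i, ((univ.filter (G.Adj v)).filter fun u => ω u = i) =
        ((univ.filter (G.Adj v)).filter fun u => ω' u = i) := by
      intro i
      apply Finset.filter_congr
      intro u hu
      rw [hω u hu]
    simp only [E, Finset.mem_biUnion, Finset.mem_filter, Finset.mem_univ, true_and]
    constructor
    · rintro ⟨i, hi⟩
      exact ⟨i, by rw [← h2 i]; exact hi⟩
    · rintro ⟨i, hi⟩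
      exact ⟨i, by rw [h2 i]; exact hi⟩
  have hcard : ∀ v, ((E v).card : ℝ) ≤ (1 / (8 * (D : ℝ) ^ 2)) * (K : ℝ) ^ Fintype.card V := by
    intro v
    have a1 : ((E v).card : ℝ) ≤ ∑ i : Fin K, ((univ.filter fun ρ : V → Fin K =>
      (1 + ε) * D / K < (((univ.filter (G.Adj v)).filter fun u => ρ u = i).card : ℝ)).card : ℝ) := by
      exact_mod_cast Finset.card_biUnion_le
    have a2 : ∑ i : Fin K, ((univ.filter fun ρ : V → Fin K =>
      (1 + ε) * D / K < (((univ.filter (G.Adj v)).filter fun u => ρ u = i).card : ℝ)).card : ℝ) ≤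
        ∑ i : Fin K, Real.exp (-(ε ^ 2 / 4 * (D / K))) * (K : ℝ) ^ Fintype.card V :=
      Finset.sum_le_sum fun i _ => tail K hK _ i ε h0 h1 D (hdeg v)
    rw [Finset.sum_const, Finset.card_univ, Fintype.card_fin, nsmul_eq_mul] at a2
    refine (a1.trans a2).trans ?_
    rw [← mul_assoc]
    apply mul_le_mul_of_nonneg_right _ (by positivity)
    -- K exp(..) ≤ 1/(8 D^2)
    have b1 : (D : ℝ) ^ (9 / 10 : ℝ) * (D : ℝ) ^ (1 / 10 : ℝ) = D := by
      rw [← Real.rpow_add hD0]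
      norm_num
    have b2 : (D : ℝ) ^ (1 / 10 : ℝ) ≤ D / K := by
      rw [le_div_iff₀ hK0]
      have b3 : 0 ≤ (D : ℝ) ^ (1 / 10 : ℝ) := Real.rpow_nonneg hD0.le _
      calc (D : ℝ) ^ (1 / 10 : ℝ) * K ≤ (D : ℝ) ^ (1 / 10 : ℝ) * (D : ℝ) ^ (9 / 10 : ℝ) :=
            mul_le_mul_of_nonneg_left hKD b3
        _ = D := by rw [mul_comm]; exact b1
    have b4 : (K : ℝ) ≤ D := by
      refine hKD.trans ?_
      calc (D : ℝ) ^ (9 / 10 : ℝ) ≤ (D : ℝ) ^ (1 : ℝ) :=
            Real.rpow_le_rpow_of_exponent_le hDr (by norm_num)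
        _ = D := Real.rpow_one _
    have b5 : Real.exp (-(ε ^ 2 / 4 * (D / K))) ≤
        Real.exp (-(ε ^ 2 / 4 * (D : ℝ) ^ (1 / 10 : ℝ))) := by
      apply Real.exp_le_exp.2
      have : ε ^ 2 / 4 * (D : ℝ) ^ (1 / 10 : ℝ) ≤ ε ^ 2 / 4 * (D / K) :=
        mul_le_mul_of_nonneg_left b2 (by positivity)
      linarith
    have b6 : (K : ℝ) * Real.exp (-(ε ^ 2 / 4 * (D / K))) ≤
        D * Real.exp (-(ε ^ 2 / 4 * (D : ℝ) ^ (1 / 10 : ℝ))) :=
      mul_le_mul b4 b5 (Real.exp_pos _).le hD0.le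
    refine b6.trans ?_
    rw [le_div_iff₀ (by positivity)]
    have : (D : ℝ) * Real.exp (-(ε ^ 2 / 4 * (D : ℝ) ^ (1 / 10 : ℝ))) * (8 * (D : ℝ) ^ 2) =
      8 * (D : ℝ) ^ 3 * Real.exp (-(ε ^ 2 / 4 * (D : ℝ) ^ (1 / 10 : ℝ))) := by ring
    rw [this]
    exact hDe
  obtain ⟨ρ, hρ⟩ := lll_exp (κ := V) (α := Fin K) (ι := V) E (fun v => univ.filter (G.Adj v))
    hdep (fun _ => 1 / (4 * (D : ℝ) ^ 2)) (fun _ => by positivity)
    (fun _ => by
      rw [div_le_div_iff₀ (by positivity) (by norm_num)]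
      nlinarith)
    (1 / (4 * (D : ℝ)))
    (by
      intro k
      rw [Finset.sum_const, nsmul_eq_mul]
      have a1 : (univ.filter fun j => k ∈ univ.filter (G.Adj j)) = univ.filter (G.Adj k) := by
        ext j
        simp [G.adj_comm]
      rw [a1]
      have a2 : ((univ.filter (G.Adj k)).card : ℝ) ≤ D := by exact_mod_cast hdeg k
      calc ((univ.filter (G.Adj k)).card : ℝ) * (1 / (4 * (D : ℝ) ^ 2)) ≤
            D * (1 / (4 * (D : ℝ) ^ 2)) := mul_le_mul_of_nonneg_right a2 (by positivity)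
        _ = 1 / (4 * (D : ℝ)) := by field_simp)
    (by
      intro v
      refine (hcard v).trans ?_
      have a0 : (Fintype.card (V → Fin K) : ℝ) = (K : ℝ) ^ Fintype.card V := by
        rw [Fintype.card_fun, Fintype.card_fin]
        push_cast
        rfl
      rw [a0]
      apply mul_le_mul_of_nonneg_right _ (by positivity)
      have a2 : ((univ.filter (G.Adj v)).card : ℝ) ≤ D := by exact_mod_cast hdeg v
      have a3 : 2 * (((univ.filter (G.Adj v)).card : ℝ) * (1 / (4 * (D : ℝ)))) ≤ 1 / 2 := by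
        have : ((univ.filter (G.Adj v)).card : ℝ) * (1 / (4 * (D : ℝ))) ≤ D * (1 / (4 * (D : ℝ))) :=
          mul_le_mul_of_nonneg_right a2 (by positivity)
        have h4 : (D : ℝ) * (1 / (4 * (D : ℝ))) = 1 / 4 := by field_simp
        linarith
      have a4 : (1 / 2 : ℝ) ≤
          Real.exp (-(2 * (((univ.filter (G.Adj v)).card : ℝ) * (1 / (4 * (D : ℝ)))))) := by
        have := Real.add_one_le_exp (-(2 * (((univ.filter (G.Adj v)).card : ℝ) * (1 / (4 * (D : ℝ))))))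
        linarith
      calc 1 / (8 * (D : ℝ) ^ 2) = 1 / (4 * (D : ℝ) ^ 2) * (1 / 2) := by
            field_simp
            norm_num
        _ ≤ _ := mul_le_mul_of_nonneg_left a4 (by positivity))
  refine ⟨ρ, fun v i => ?_⟩
  have h2 := hρ v
  simp only [E, Finset.mem_biUnion, Finset.mem_filter, Finset.mem_univ, true_and, not_exists,
    not_lt] at h2
  have h3 := h2 i
  rw [Finset.filter_filter] at h3
  exact h3

end Pool.Agent.H729.AG
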